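import Pool.Agent.Helper74.DI.St

/-!
# Project DI (MP_26f0da_lc), module NCO: signed labels, matchings and stacks
-/

set_option autoImplicit false

namespace Pool.Agent.Helper95.DI

open Pool.Agent.Helper74 Pool.Agent.Helper74.DI
open Pool.Agent.Helper74.NM (NC)
open Pool.Agent.Helper74.WB (OP iv ap rd)

theorem nc_op (z : List (ℕ × Bool)) (h : NC Sc z) : OP (z.map fun a => (a, false)) := by
  induction h with
  | nil => exact OP.nil
  | wrap x y u v hxy _ _ ihu ihv =>
    have e : y = iv x := hxy
    subst e
    have := OP.wrap x false false _ _ ihu ihv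
    simpa using this

theorem op_nc (w : List ((ℕ × Bool) × Bool)) (h : OP w) :
    ∀ z : List (ℕ × Bool), (z.map fun a => (a, false)) = w → NC Sc z := by
  induction h with
  | nil =>
    intro z hz
    rw [List.map_eq_nil_iff] at hz
    subst hz
    exact NC.nil
  | skip x w _ _ =>
    intro z hz
    exfalso
    cases z with
    | nil => simp at hz
    | cons a z => simp at hz
  | wrap x o o' u v _ _ ihu ihv =>
    intro z hz
    cases z with
    | nil => simp at hz
    | cons a z =>
      rw [List.map_cons, List.cons_eq_cons] at hz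
      obtain ⟨h1, h2⟩ := hz
      rw [List.map_eq_append_iff] at h2
      obtain ⟨l1, l2, rfl, h3, h4⟩ := h2
      cases l2 with
      | nil => simp at h4
      | cons b l3 =>
        rw [List.map_cons, List.cons_eq_cons] at h4
        obtain ⟨h5, h6⟩ := h4
        have ea : a = x := congrArg Prod.fst h1
        have eb : b = iv x := congrArg Prod.fst h5
        subst ea
        subst eb
        exact NC.wrap a (iv a) l1 l3 rfl (ihu l1 h3) (ihv l3 h6)

theorem hNCO (hGRE : WB.StGRE) : StNCO := by
  intro z
  have h1 : NC Sc z ↔ OP (z.map fun a => (a, false)) :=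
    ⟨nc_op z, fun h => op_nc _ h z rfl⟩
  rw [h1, hGRE]
  have h2 := WB.gr_mands z [] [] []
  rw [List.append_nil, WB.gr_nil] at h2
  exact h2

end Pool.Agent.Helper95.DI
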